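import Pool.Agent.helper59.GF.Spec

set_option autoImplicit false

/-!
# Project gf (MP_06d6be_co), row LNT: tuples with two sets of one class
-/

namespace Pool.Agent.GF

open Filter Topology

theorem LNT_gen {p m : ℕ} {τ : Type} [Fintype τ] (ξ : τ → Fin (p + 2) × Fin m → ℝ) (sl e : τ → ℝ)
    (B : τ → (Fin p → ℝ) →ₗ[ℝ] ℝ) (I : Fin (p + 2) → Fin (p + 2) × Fin m) (r₀ r₁ : Fin (p + 2))
    (hA : ∀ B φ : ℝ, 0 < φ → ∀ᶠ δ in 𝓝[>] (0 : ℝ), ∃ σ : ℝ, ∀ F : Fin (p + 2) → ℝ, (∀ r, |F r| ≤ B) →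
      φ ≤ F r₀ - F r₁ → 0 < σ * ∑ r, mu p (nd p m δ ∘ I) r * F r)
    (b D : ℝ) (hD : D ≠ 0)
    (h : ∀ t' t'' : τ, (ξ t' (I r₀) + b * sl t') - (ξ t'' (I r₁) + b * sl t'') = D) :
    ∀ᶠ δ in 𝓝[>] (0 : ℝ), LocSep p (nd p m δ) ξ sl e B I := by
  obtain ⟨s, hs1, hs2⟩ : ∃ s : ℝ, |s| = 1 ∧ s * D = |D| := by
    rcases lt_or_gt_of_ne hD with h1 | h1
    · exact ⟨-1, by simp, by rw [abs_of_neg h1]; ring⟩
    · exact ⟨1, by simp, by rw [abs_of_pos h1]; ring⟩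
  have hφ : 0 < |D| := abs_pos.2 hD
  filter_upwards [hA (∑ t' : τ, ∑ r, |ξ t' (I r) + b * sl t'|) |D| hφ] with δ hδ
  obtain ⟨σ, hσ⟩ := hδ
  refine ⟨σ * s, σ * s * b, 0, fun t => ?_⟩
  have h1 := hσ (fun r => s * (ξ (t r) (I r) + b * sl (t r))) ?_ ?_
  · have h2 : ∑ r, mu p (nd p m δ ∘ I) r * (σ * s * ξ (t r) (I r) + σ * s * b * sl (t r) +
        0 * (sl (t r) * ξ (t r) (I r) + (B (t r)) (Yl p (nd p m δ (I r))) + e (t r))) =
        σ * ∑ r, mu p (nd p m δ ∘ I) r * (s * (ξ (t r) (I r) + b * sl (t r))) := by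
      rw [Finset.mul_sum]
      refine Finset.sum_congr rfl fun r _ => ?_
      ring
    rw [h2]
    exact h1
  · intro r
    show |s * (ξ (t r) (I r) + b * sl (t r))| ≤ _
    rw [abs_mul, hs1, one_mul]
    have h3 : |ξ (t r) (I r) + b * sl (t r)| ≤ ∑ r', |ξ (t r) (I r') + b * sl (t r)| :=
      Finset.single_le_sum (f := fun r' => |ξ (t r) (I r') + b * sl (t r)|)
        (fun _ _ => abs_nonneg _) (Finset.mem_univ r)
    have h4 : ∑ r', |ξ (t r) (I r') + b * sl (t r)| ≤ ∑ t' : τ, ∑ r', |ξ t' (I r') + b * sl t'| :=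
      Finset.single_le_sum (f := fun t' => ∑ r', |ξ t' (I r') + b * sl t'|)
        (fun _ _ => Finset.sum_nonneg fun _ _ => abs_nonneg _) (Finset.mem_univ (t r))
    exact h3.trans h4
  · show |D| ≤ s * (ξ (t r₀) (I r₀) + b * sl (t r₀)) - s * (ξ (t r₁) (I r₁) + b * sl (t r₁))
    rw [← mul_sub, h (t r₀) (t r₁), hs2]

theorem LNT (hASY : ASY_stmt) : LNT_stmt := by
  intro p m X T ε hX hε B e I hI hnc
  obtain ⟨r₀, r₁, hne, hcl, hA⟩ := hASY p m I hI hnc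
  have hj : (I r₀).2 ≠ (I r₁).2 := by
    intro h
    exact hne (hI (Prod.ext hcl h))
  by_cases hc : ((I r₀).1 : ℕ) < p + 1
  · have hc1 : ((I r₁).1 : ℕ) < p + 1 := by rw [← hcl]; exact hc
    refine LNT_gen (xiL X T ε) (slL T ε) e B I r₀ r₁ hA 0
      (X ⟨(I r₀).1, hc⟩ (I r₀).2 - X ⟨(I r₁).1, hc1⟩ (I r₁).2) ?_ ?_
    · intro h
      have h1 : (⟨(I r₀).1, hc⟩ : Fin (p + 1)) = ⟨(I r₁).1, hc1⟩ := by
        apply Fin.ext
        show ((I r₀).1 : ℕ) = ((I r₁).1 : ℕ)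
        rw [hcl]
      rw [h1] at h
      exact hj (hX _ (sub_eq_zero.1 h))
    · intro t' t''
      unfold xiL
      rw [dif_pos hc, dif_pos hc1]
      ring
  · have hc1 : ¬ ((I r₁).1 : ℕ) < p + 1 := by rw [← hcl]; exact hc
    refine LNT_gen (xiL X T ε) (slL T ε) e B I r₀ r₁ hA 1
      (ε * (((I r₀).2 : ℕ) : ℝ) - ε * (((I r₁).2 : ℕ) : ℝ)) ?_ ?_
    · intro h
      have h1 : (((I r₀).2 : ℕ) : ℝ) = (((I r₁).2 : ℕ) : ℝ) := mul_left_cancel₀ hε.ne' (sub_eq_zero.1 h)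
      exact hj (Fin.ext (by exact_mod_cast h1))
    · intro t' t''
      unfold xiL slL
      rw [dif_neg hc, dif_neg hc1]
      ring

end Pool.Agent.GF
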