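import Pool.Agent.helper65.GD.SpecF

/-!
# Row gf:XEB
-/

set_option autoImplicit false

namespace Pool.Agent.GD

open Finset Metric Filter Topology

theorem XEB_aux (h2 : XAV_stmt) (a κ : ℕ → ℂ) (hκ : Cara κ) (n : ℕ) (hn : 1 ≤ n) (M : ℝ)
    (h : ∀ y : ℂ, ‖y‖ = 1 → ‖gy a y n‖ + ‖gy a y (n - 1)‖ ≤ M) : ‖cv a κ n‖ ≤ M := by
  have key := h2 a (fun i => if i = n then 1 else 0) κ n M hκ (by
    intro y hy
    have e1 : ∑ i ∈ range (n + 1), (if i = n then (1 : ℂ) else 0) * gy a y i = gy a y n := by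
      rw [Finset.sum_eq_single n]
      · simp
      · intro b _ hb
        simp [hb]
      · intro hn'
        exact absurd (mem_range.2 (Nat.lt_succ_self n)) hn'
    have e2 : ∑ i ∈ Icc 1 n, (if i = n then (1 : ℂ) else 0) * gy a y (i - 1) = gy a y (n - 1) := by
      rw [Finset.sum_eq_single n]
      · simp
      · intro b _ hb
        simp [hb]
      · intro hn'
        exact absurd (Finset.mem_Icc.2 ⟨hn, le_refl n⟩) hn'
    rw [e1, e2]
    exact h y hy)
  have e3 : ∑ i ∈ range (n + 1), (if i = n then (1 : ℂ) else 0) * cv a κ i = cv a κ n := by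
    rw [Finset.sum_eq_single n]
    · simp
    · intro b _ hb
      simp [hb]
    · intro hn'
      exact absurd (mem_range.2 (Nat.lt_succ_self n)) hn'
  rw [e3] at key
  exact key

theorem XEB (h1 : XCB_stmt) (h2 : XAV_stmt) (h3 : XGB_stmt) : XEB_stmt := by
  intro N w x κ hA hκ
  have h0 : cv (ex (-2) (mom w x)) κ 0 = 1 := by
    unfold cv
    rw [zero_add, Finset.sum_range_one, ex_zero, hκ.1, one_mul]
  have hω1 : ex (-2) (mom w x) 1 = -2 * mom w x 1 := by
    have h := (ex_rec (-2) (mom w x)).2 1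
    rw [Finset.sum_range_one, ex_zero] at h
    simpa using h
  have hb1 : ‖mom w x 1‖ ≤ 1 := by
    apply h1.1 (mom w x) 1
    intro M ε hε
    exact ⟨N, w, x, hA, fun m _ => by rw [sub_self, norm_zero]; exact hε⟩
  have hk1 : ‖κ 1‖ ≤ 2 := h1.2 κ 1 hκ le_rfl
  refine ⟨h0, ?_, ?_, ?_⟩
  · have he : cv (ex (-2) (mom w x)) κ 1 = κ 1 - 2 * mom w x 1 := by
      unfold cv
      rw [Finset.sum_range_succ, Finset.sum_range_one, Nat.sub_zero, Nat.sub_self, ex_zero, hω1,
        hκ.1]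
      ring
    rw [he]
    have h4 : ‖κ 1 - 2 * mom w x 1‖ ≤ ‖κ 1‖ + ‖2 * mom w x 1‖ := norm_sub_le _ _
    have h5 : ‖2 * mom w x 1‖ = 2 * ‖mom w x 1‖ := by
      rw [norm_mul, Complex.norm_ofNat]
    rw [h5] at h4
    nlinarith [sq_nonneg (1 - ‖mom w x 1‖)]
  · apply XEB_aux h2 _ κ hκ 2 (by norm_num)
    intro y hy
    have h4 := h3 N w x y hA hy
    have h5 := h4.1 2
    have h6 := h4.2
    change ‖gy (ex (-2) (mom w x)) y 2‖ + ‖gy (ex (-2) (mom w x)) y 1‖ ≤ 7
    linarith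
  · intro i
    rcases Nat.eq_zero_or_pos i with hi | hi
    · rw [hi, h0, norm_one]
      norm_num
    · apply XEB_aux h2 _ κ hκ i hi
      intro y hy
      have h4 := h3 N w x y hA hy
      have h5 := h4.1 i
      have h6 := h4.1 (i - 1)
      linarith

end Pool.Agent.GD

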