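import Pool.Agent.helper65.GD.SpecF

/-!
# Row gf:XT2
-/

set_option autoImplicit false

namespace Pool.Agent.GD

open Finset Metric Filter Topology

theorem XT2 (h1 : XT1_stmt) : XT2_stmt := by
  intro N w x y hA hy
  obtain ⟨hw0, hw1, hx⟩ := hA
  choose θ hθ using fun l => h1 (x l) y (hx l) hy
  refine ⟨∑ l, w l * θ l, fun z hz => ?_⟩
  have hlt : |∑ l, w l * ((Complex.log (1 - x l * z) - Complex.log (1 - y * z)).im - θ l)| <
      Real.pi / 2 := by
    refine lt_of_le_of_lt (Finset.abs_sum_le_sum_abs _ _) ?_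
    have e1 : Real.pi / 2 = ∑ l, w l * (Real.pi / 2) := by
      rw [← Finset.sum_mul, hw1, one_mul]
    rw [e1]
    have hex : ∃ l ∈ (univ : Finset (Fin N)), 0 < w l := by
      by_contra hcon
      push Not at hcon
      have h2 : ∑ l, w l ≤ 0 := Finset.sum_nonpos hcon
      rw [hw1] at h2
      linarith
    obtain ⟨l0, -, hl0⟩ := hex
    refine Finset.sum_lt_sum ?_ ⟨l0, mem_univ _, ?_⟩
    · intro l _
      rw [abs_mul, abs_of_nonneg (hw0 l)]
      exact mul_le_mul_of_nonneg_left (hθ l z hz).le (hw0 l)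
    · rw [abs_mul, abs_of_nonneg (hw0 l0)]
      exact mul_lt_mul_of_pos_left (hθ l0 z hz) hl0
  unfold TF
  rw [← Complex.exp_add, Complex.exp_re]
  refine mul_pos (Real.exp_pos _) ?_
  have him : (-(((∑ l, w l * θ l : ℝ) : ℂ) * Complex.I) +
      ∑ l, (w l : ℂ) * (Complex.log (1 - x l * z) - Complex.log (1 - y * z))).im =
      ∑ l, w l * ((Complex.log (1 - x l * z) - Complex.log (1 - y * z)).im - θ l) := by
    rw [Complex.add_im, Complex.neg_im, Complex.im_sum]
    have e2 : (((∑ l, w l * θ l : ℝ) : ℂ) * Complex.I).im = ∑ l, w l * θ l := by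
      rw [Complex.mul_im, Complex.ofReal_re, Complex.ofReal_im, Complex.I_re, Complex.I_im]
      ring
    rw [e2, ← Finset.sum_neg_distrib, ← Finset.sum_add_distrib]
    refine Finset.sum_congr rfl fun l _ => ?_
    rw [Complex.im_ofReal_mul]
    ring
  rw [him]
  apply Real.cos_pos_of_mem_Ioo
  exact ⟨by linarith [(abs_lt.1 hlt).1], (abs_lt.1 hlt).2⟩

end Pool.Agent.GD

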